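import Pool.Agent.Helper28.A8.Tools

/-! Block G27 (helper28): `S_C0`. -/

set_option autoImplicit false

namespace Pool.Agent.A8

open Matrix
open scoped commutatorElement

/-- the square of a product of three involutions with central commutators -/
theorem G27.nsq {Q : Type*} [Group Q] {a b d k1 k2 k3 : Q} (ha : a * a = 1) (hb : b * b = 1)
    (hd : d * d = 1) (h1 : b * a = k1 * (a * b)) (h2 : d * b = k2 * (b * d))
    (h3 : d * a = k3 * (a * d)) (c1a : Commute k1 a) (c2a : Commute k2 a) (c3a : Commute k3 a)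
    (c1b : Commute k1 b) (c2b : Commute k2 b) (c3b : Commute k3 b)
    (c12 : Commute k1 k2) (c13 : Commute k1 k3) (c23 : Commute k2 k3) :
    (a * b * d) * (a * b * d) = k1 * k2 * k3 := by
  calc (a * b * d) * (a * b * d) = a * b * (d * a) * b * d := by group
    _ = a * b * (k3 * (a * d)) * b * d := by rw [h3]
    _ = k3 * (a * (b * a) * (d * b) * d) := by
        have e1 : a * b * k3 = k3 * (a * b) := (c3a.symm.mul_left c3b.symm)
        calc a * b * (k3 * (a * d)) * b * d = (a * b * k3) * (a * d) * b * d := by group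
          _ = (k3 * (a * b)) * (a * d) * b * d := by rw [e1]
          _ = _ := by group
    _ = k3 * (a * (k1 * (a * b)) * (k2 * (b * d)) * d) := by rw [h1, h2]
    _ = k3 * (k1 * k2 * ((a * a) * (b * b) * (d * d))) := by
        have e1 : a * k1 = k1 * a := c1a.symm
        have e2 : (a * a * b) * k2 = k2 * (a * a * b) :=
          ((c2a.symm.mul_left c2a.symm).mul_left c2b.symm)
        calc k3 * (a * (k1 * (a * b)) * (k2 * (b * d)) * d)
            = k3 * ((a * k1) * (a * b) * k2 * (b * d) * d) := by group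
          _ = k3 * ((k1 * a) * (a * b) * k2 * (b * d) * d) := by rw [e1]
          _ = k3 * (k1 * ((a * a * b) * k2) * (b * d) * d) := by group
          _ = k3 * (k1 * (k2 * (a * a * b)) * (b * d) * d) := by rw [e2]
          _ = _ := by group
    _ = k3 * (k1 * k2) := by rw [ha, hb, hd]; group
    _ = k1 * k2 * k3 := ((c13.mul_left c23).eq).symm

/-- the group-theoretic core: an element `e` with `e² = 1`, `n = e e^r e^{r²}`, `n² = 1`, `n`
and `c = [e^r, e]` central, `c² = 1`, forces `c = 1`. -/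
theorem G27.core {Q : Type*} [Group Q] {e r : Q} (hr : r ^ 3 = 1) (he : e * e = 1)
    (hn : (e * (r * e * r⁻¹) * (r * (r * e * r⁻¹) * r⁻¹)) *
      (e * (r * e * r⁻¹) * (r * (r * e * r⁻¹) * r⁻¹)) = 1)
    (hnc : Commute (e * (r * e * r⁻¹) * (r * (r * e * r⁻¹) * r⁻¹)) (r * e * r⁻¹))
    (hc2 : ⁅r * e * r⁻¹, e⁆ * ⁅r * e * r⁻¹, e⁆ = 1)
    (hc : Commute ⁅r * e * r⁻¹, e⁆ e) (hc' : Commute ⁅r * e * r⁻¹, e⁆ (r * e * r⁻¹)) :
    ⁅r * e * r⁻¹, e⁆ = 1 := by
  set b := r * e * r⁻¹ with hb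
  set d := r * b * r⁻¹ with hd
  set c := ⁅b, e⁆ with hcdef
  have hbb : b * b = 1 := by
    rw [hb]
    calc r * e * r⁻¹ * (r * e * r⁻¹) = r * (e * e) * r⁻¹ := by group
      _ = 1 := by rw [he]; group
  have hdd : d * d = 1 := by
    rw [hd]
    calc r * b * r⁻¹ * (r * b * r⁻¹) = r * (b * b) * r⁻¹ := by group
      _ = 1 := by rw [hbb]; group
  have hrd : r * d * r⁻¹ = e := by
    rw [hd, hb]
    have hr3' : r * r * r = 1 := by rw [← hr, pow_succ, pow_two]
    calc r * (r * (r * e * r⁻¹) * r⁻¹) * r⁻¹ = (r * r * r) * e * (r * r * r)⁻¹ := by group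
      _ = e := by rw [hr3']; group
  have ei : e⁻¹ = e := inv_eq_of_mul_eq_one_left he
  have bi : b⁻¹ = b := inv_eq_of_mul_eq_one_left hbb
  have di : d⁻¹ = d := inv_eq_of_mul_eq_one_left hdd
  have ci : c⁻¹ = c := inv_eq_of_mul_eq_one_left hc2
  have hce : b * e = c * (e * b) := by
    rw [hcdef, commutatorElement_def]
    group
  -- `[d, b] = c^r`
  have hcr : ⁅d, b⁆ = r * c * r⁻¹ := by
    rw [hcdef, commutatorElement_def, commutatorElement_def, hd]
    have : r * (b * e * b⁻¹ * e⁻¹) * r⁻¹ =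
        (r * b * r⁻¹) * (r * e * r⁻¹) * (r * b * r⁻¹)⁻¹ * (r * e * r⁻¹)⁻¹ := by group
    rw [this, ← hb]
  -- `d = (e b)⁻¹ n`
  have hdn : d = b * e * (e * b * d) := by
    calc d = (b * b) * d := by rw [hbb, one_mul]
      _ = b * (e * e) * b * d := by rw [he]; group
      _ = _ := by group
  have hcr2 : ⁅d, b⁆ = c := by
    have e1 : d * b = b * e * b * (e * b * d) := by
      nth_rewrite 1 [hdn]
      calc b * e * (e * b * d) * b = b * e * ((e * b * d) * b) := by group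
        _ = b * e * (b * (e * b * d)) := by rw [hnc.eq]
        _ = _ := by group
    have e2 : b * d = b * (b * e * (e * b * d)) := by rw [← hdn]
    have e3 : b * e * b = c * (b * (b * e)) := by
      calc b * e * b = c * (e * b) * b := by rw [hce]
        _ = c * e * (b * b) := by group
        _ = c * e := by rw [hbb, mul_one]
        _ = c * ((b * b) * e) := by rw [hbb, one_mul]
        _ = _ := by group
    have e4 : d * b = c * (b * d) := by
      rw [e1, e2, e3]; group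
    rw [commutatorElement_def, e4]
    group
  have hcrc : r * c * r⁻¹ = c := by rw [← hcr, hcr2]
  -- `[e, d] = c^{r²} = c`
  have hed : ⁅e, d⁆ = c := by
    have : ⁅e, d⁆ = r * ⁅d, b⁆ * r⁻¹ := by
      rw [commutatorElement_def, commutatorElement_def]
      have e1 : r * (d * b * d⁻¹ * b⁻¹) * r⁻¹ =
        (r * d * r⁻¹) * (r * b * r⁻¹) * (r * d * r⁻¹)⁻¹ * (r * b * r⁻¹)⁻¹ := by group
      rw [e1, hrd, ← hd]
    rw [this, hcr2, hcrc]
  have hc'' : Commute c d := by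
    have h1 : Commute (r * c * r⁻¹) (r * b * r⁻¹) := by
      show _ = _
      calc r * c * r⁻¹ * (r * b * r⁻¹) = r * (c * b) * r⁻¹ := by group
        _ = r * (b * c) * r⁻¹ := by rw [hc'.eq]
        _ = _ := by group
    rwa [hcrc, ← hd] at h1
  have h2 : d * b = c * (b * d) := by
    have := hcr2
    rw [commutatorElement_def] at this
    calc d * b = (d * b * d⁻¹ * b⁻¹) * (b * d) := by group
      _ = _ := by rw [this]
  have h3 : d * e = c * (e * d) := by
    have := hed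
    rw [commutatorElement_def] at this
    have h4 : e * d = c * (d * e) := by
      calc e * d = (e * d * e⁻¹ * d⁻¹) * (d * e) := by group
        _ = _ := by rw [this]
    rw [h4, ← mul_assoc, hc2, one_mul]
  have key := G27.nsq he hbb hdd hce h2 h3 hc hc hc hc' hc' hc' (Commute.refl c)
    (Commute.refl c) (Commute.refl c)
  rw [hn] at key
  rw [hc2, one_mul] at key
  exact key.symm

section
variable {G : Type} [Group G] {π : G →* Gam}

theorem G27.act_homOn {X : Subgroup G} {M : Type*} [AddCommGroup M] [Module RG M] {φ : G → M}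
    (h : HomOn π X φ) {g x : G} (hx : x ∈ X) (hg : g * x = x * g) : act (π g) (φ x) = φ x := by
  rw [← h.conj g x hx, hg, mul_inv_cancel_right]

end

theorem bC0 (h1 : S_STR) (h2 : S_L7) (h3 : S_MTG) (h4 : S_VIG) (h5 : S_THA) (h6 : S_COP) :
    S_C0 := by
  intro G _ _ π hπ s r τ ρ hF hR ε hε hεs hερ
  have S := h1 G π hπ
  have L := h2 G π hπ
  obtain ⟨-, M2, -⟩ := h3 G π hπ
  set Kv := Kt π .v with hKv
  set Kl := Kt π .l with hKl
  have hKvn : Kv.Normal := Kt_normal π .v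
  have hKln : Kl.Normal := Kt_normal π .l
  have hKvK : Kv ≤ π.ker := Kt_le π .v
  set A := ⁅Kv, Kl⁆ with hA
  haveI hAn : A.Normal := Subgroup.commutator_normal Kv Kl
  have hAZ : A ≤ ZK π := S.aZ
  set C := CK π Kv with hC
  haveI hCn : C.Normal := CK_normal π hKvn
  set ρ' := r * τ * ρ * τ⁻¹ * r⁻¹ with hρ'
  have hsr : s * r = r * s := hF.sr
  have hsτ : τ * s = s * τ := hF.τs
  have πρ' : π ρ' = gh' := by
    rw [hρ', map_mul, map_mul, map_mul, map_mul, map_inv, map_inv, hF.πr, hF.πτ, hR.πρ, gh'_eq]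
  have hρ'7 : ρ' ^ 7 = 1 := by
    have : ρ' = (r * τ) * ρ * (r * τ)⁻¹ := by rw [hρ']; group
    rw [this, conj_pow, hR.r7]; group
  have hρ'1 : ρ' ≠ 1 := by
    intro h
    rw [h, map_one] at πρ'
    exact T28.gh'_ne πρ'.symm
  have hεK : ε ∈ π.ker := hKvK hε
  have hee : ε * ε = 1 := T28.sq7 hπ hρ'7 hρ'1 hεK hερ
  have hr3 : r ^ 3 = 1 := hF.r3
  -- `r` and `s`
  have cs_conj : ∀ g y : G, g * s = s * g → y * s = s * y → (g * y * g⁻¹) * s = s * (g * y * g⁻¹) := by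
    intro g y hg hy
    have c1 : Commute g s := hg
    have c2 : Commute y s := hy
    exact (c1.mul_left c2).mul_left c1.inv_left
  set b := r * ε * r⁻¹ with hb
  have hbv : b ∈ Kv := hKvn.conj_mem ε hε r
  have hbs : b * s = s * b := cs_conj r ε hsr.symm hεs
  set c := ⁅b, ε⁆ with hc
  have hτεv : τ * ε * τ⁻¹ ∈ Kv := hKvn.conj_mem ε hε τ
  -- Step 1: `τ ε τ⁻¹ = z b`, `z ∈ C`
  have step1 : (τ * ε * τ⁻¹) * b⁻¹ ∈ C := by
    set e0 := τ⁻¹ * r⁻¹ * ε * r * τ with he0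
    have he0v : e0 ∈ Kv := by
      have := hKvn.conj_mem ε hε (τ⁻¹ * r⁻¹)
      have e : τ⁻¹ * r⁻¹ * ε * (τ⁻¹ * r⁻¹)⁻¹ = e0 := by rw [he0]; group
      rwa [e] at this
    have he0ρ : e0 * ρ = ρ * e0 := by
      have e1 : e0 * ρ = (r * τ)⁻¹ * (ε * ρ') * (r * τ) := by rw [he0, hρ']; group
      have e2 : ρ * e0 = (r * τ)⁻¹ * (ρ' * ε) * (r * τ) := by rw [he0, hρ']; group
      rw [e1, e2, hερ]
    have he0s : e0 * s = s * e0 := by
      have c1 : Commute τ s := hsτ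
      have c2 : Commute r s := hsr.symm
      have c3 : Commute ε s := hεs
      exact (((c1.inv_left.mul_left c2.inv_left).mul_left c3).mul_left c2).mul_left c1
    have hz := h4 G π hπ s r τ ρ hF hR e0 he0v he0ρ he0s
    -- pass to the quotient by `C`
    let f := QuotientGroup.mk' C
    have hf : ∀ x, x ∈ C ↔ f x = 1 := fun x => (QuotientGroup.eq_one_iff x).symm
    have hq1 : f τ * f e0 = f e0 * f τ := by
      have := (hf _).1 hz
      rw [commutatorElement_def, map_mul, map_mul, map_mul, map_inv, map_inv] at this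
      have h7 : f τ * f e0 = (f τ * f e0 * (f τ)⁻¹ * (f e0)⁻¹) * (f e0 * f τ) := by group
      rw [h7, this, one_mul]
    have hq2 : f τ * f r * (f τ)⁻¹ = (f r)⁻¹ := by
      rw [← map_mul, ← map_inv, ← map_mul, hF.τr, map_inv]
    have hq3 : f r ^ 3 = 1 := by rw [← map_pow, hr3, map_one]
    have hq4 : f ε = f r * f e0 * (f r)⁻¹ := by
      have : ε = r * τ * e0 * τ⁻¹ * r⁻¹ := by rw [he0]; group
      rw [this, map_mul, map_mul, map_mul, map_mul, map_inv, map_inv]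
      calc f r * f τ * f e0 * (f τ)⁻¹ * (f r)⁻¹ = f r * (f τ * f e0) * (f τ)⁻¹ * (f r)⁻¹ := by
            group
        _ = _ := by rw [hq1]; group
    rw [hf, map_mul, map_inv, mul_inv_eq_one, map_mul, map_mul, map_inv, hb, map_mul, map_mul,
      map_inv]
    have hq5 : f τ * f r = (f r)⁻¹ * f τ := by rw [← hq2]; group
    have hq6 : f r * f r = (f r)⁻¹ := by
      rw [eq_inv_iff_mul_eq_one]
      rw [← hq3, pow_succ, pow_two]
    have hq7 : f τ * f e0 * (f τ)⁻¹ = f e0 := by rw [hq1]; group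
    calc f τ * f ε * (f τ)⁻¹ = (f τ * f r) * f e0 * (f τ * f r)⁻¹ := by rw [hq4]; group
      _ = (f r)⁻¹ * (f τ * f e0 * (f τ)⁻¹) * f r := by rw [hq5]; group
      _ = (f r)⁻¹ * f e0 * f r := by rw [hq7]
      _ = (f r * f r) * f e0 * (f r * f r)⁻¹ := by rw [hq6]; group
      _ = f r * f ε * (f r)⁻¹ := by rw [hq4]; group
  obtain ⟨z, hz, hzτ⟩ : ∃ z ∈ C, τ * ε * τ⁻¹ = z * b := by
    exact ⟨_, step1, by group⟩
  have hzc : ∀ y ∈ Kv, y * z = z * y := (mem_CK.1 hz).1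
  -- Step 2: `[τετ⁻¹, ε] = c`
  have hcτ : ⁅τ * ε * τ⁻¹, ε⁆ = c := by
    rw [hzτ, commutatorElement_def, hc, commutatorElement_def]
    have e1 : z * b * ε * (z * b)⁻¹ = z * (b * ε * b⁻¹) * z⁻¹ := by group
    have e2 : z * (b * ε * b⁻¹) = (b * ε * b⁻¹) * z := (hzc _ (hKvn.conj_mem ε hε b)).symm
    rw [e1, e2]; group
  -- the goal is `c = 1`
  suffices hgoal : c = 1 by
    rw [hgoal, commutatorElement_eq_one_iff_mul_comm] at hcτ
    exact hcτ
  -- Step 3: `n ∈ KV0`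
  set KV0 := rjT π .v Kv ⊥ with hKV0
  have hKV0n : KV0.Normal := rjT_normal π .v hKvn ⊥
  set d := r * b * r⁻¹ with hd
  have hdv : d ∈ Kv := hKvn.conj_mem b hbv r
  have hbd : d * s = s * d := cs_conj r b hsr.symm hbs
  have hφε : ∀ φ : G → MV, HomOn π Kv φ → φ ε = 0 ∨ φ ε = vE1 := by
    intro φ hφ
    refine T28.V_fix _ ?_ ?_
    · rw [← πρ']
      exact G27.act_homOn hφ hε hερ.symm
    · rw [← hF.πs]
      exact G27.act_homOn hφ hε hεs.symm
  have hn : ε * b * d ∈ KV0 := by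
    rw [hKV0, mem_rjT]
    refine ⟨Kv.mul_mem (Kv.mul_mem hε hbv) hdv, fun φ hφ _ => ?_⟩
    rw [hφ.mul _ (Kv.mul_mem hε hbv) _ hdv, hφ.mul _ hε _ hbv, hd, hφ.conj r b hbv, hb,
      hφ.conj r ε hε, hF.πr]
    rcases hφε φ hφ with h | h
    · rw [h]; simp
    · rw [h]
      have e1 : act gr vE1 = vE0 + vE1 := T28.gr_E1
      have e2 : act gr (vE0 + vE1) = vE1 + (vE0 + vE1) := by
        rw [act_add, T28.gr_E0, T28.gr_E1]
      show vE1 + act gr vE1 + act gr (act gr vE1) = (0 : MV)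
      rw [e1, e2]
      decide
  have hnn : (ε * b * d) * (ε * b * d) = 1 := L.el _ hn
  -- facts on `c`
  have hcJ : c ∈ ⁅Kv, Kv⁆ := Subgroup.commutator_mem_commutator hbv hε
  have hc2 : c * c = 1 := S.j2 c hcJ
  have hcv : c ∈ Kv := by
    have := Subgroup.commutator_le_left Kv Kv hcJ
    exact this
  have hcs : c * s = s * c := by
    have c1 : Commute b s := hbs
    have c2 : Commute ε s := hεs
    rw [hc, commutatorElement_def]
    exact (((c1.mul_left c2).mul_left c1.inv_left).mul_left c2.inv_left)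
  -- Step 4: `c ∈ A`
  have hcA : c ∈ A := by
    let f := QuotientGroup.mk' A
    have hf : ∀ x, x ∈ A ↔ f x = 1 := fun x => (QuotientGroup.eq_one_iff x).symm
    have hcomm : ∀ x y : G, ⁅x, y⁆ ∈ A → Commute (f x) (f y) := by
      intro x y hxy
      have := (hf _).1 hxy
      rw [map_commutatorElement] at this
      exact (commutatorElement_eq_one_iff_commute.1 this)
    rw [hf, hc, map_commutatorElement, hb, map_mul, map_mul, map_inv]
    refine G27.core (by rw [← map_pow, hr3, map_one]) (by rw [← map_mul, hee, map_one]) ?_ ?_ ?_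
      ?_ ?_
    · rw [← map_inv, ← map_mul, ← map_mul, ← hb, ← map_mul, ← map_mul, ← map_mul, ← hd,
        ← map_mul, ← map_mul, hnn, map_one]
    · rw [← map_inv, ← map_mul, ← map_mul, ← hb, ← map_mul, ← map_mul, ← map_mul, ← hd,
        ← map_mul]
      exact hcomm _ _ (L.kv (Subgroup.commutator_mem_commutator hn hbv))
    · rw [← map_inv, ← map_mul, ← map_mul, ← hb, ← map_commutatorElement, ← hc, ← map_mul, hc2,
        map_one]
    · rw [← map_inv, ← map_mul, ← map_mul, ← hb, ← map_commutatorElement, ← hc]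
      exact hcomm _ _ (S.jv (Subgroup.commutator_mem_commutator hcJ hε))
    · rw [← map_inv, ← map_mul, ← map_mul, ← hb, ← map_commutatorElement, ← hc]
      exact hcomm _ _ (S.jv (Subgroup.commutator_mem_commutator hcJ hbv))
  have hAcomm : ∀ a ∈ A, ∀ y ∈ π.ker, Commute a y := by
    intro a ha y hy
    exact ((mem_ZK.1 (hAZ ha)).1 y hy).symm
  -- Step 5: `λ(c) = 0` for all `λ : A → V*`
  have hlam : ∀ lam : G → MD, HomOn π A lam → lam c = 0 := by
    intro lam hlam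
    have hs' : act gs (lam c) = lam c := by
      rw [← hF.πs]; exact G27.act_homOn hlam hcA hcs.symm
    have hτc : τ * c * τ⁻¹ = c := by
      have hth := h5 G π hπ s r τ hF ε hε hεs
      have e1 : τ * ⁅τ * ε * τ⁻¹, ε⁆ * τ⁻¹ =
          ⁅(τ * τ) * ε * (τ * τ)⁻¹, τ * ε * τ⁻¹⁆ := by
        rw [commutatorElement_def, commutatorElement_def]; group
      have e2 : (τ * τ) * ε * (τ * τ)⁻¹ = ε := by rw [hth]; group
      rw [hcτ, e2] at e1
      rw [e1, ← commutatorElement_inv, hcτ]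
      exact inv_eq_of_mul_eq_one_left hc2
    have ht' : act gt (lam c) = lam c := by
      rw [← hF.πτ, ← hlam.conj τ c hcA, hτc]
    have hh' : act gh' (lam c) = lam c := T28.D_fix _ hs' ht'
    -- the subgroup `N`
    let N : Subgroup G :=
      { carrier := {y | y ∈ Kv ∧ ⁅y, ε⁆ ∈ A ∧ lam ⁅y, ε⁆ = 0}
        one_mem' := by
          refine ⟨Kv.one_mem, ?_, ?_⟩
          · rw [commutatorElement_one_left]; exact A.one_mem
          · rw [commutatorElement_one_left]; exact hlam.map_one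
        mul_mem' := by
          rintro x y ⟨hx, hxA, hx0⟩ ⟨hy, hyA, hy0⟩
          have e : ⁅x * y, ε⁆ = ⁅y, ε⁆ * ⁅x, ε⁆ := by
            have e1 : ⁅x * y, ε⁆ = x * ⁅y, ε⁆ * x⁻¹ * ⁅x, ε⁆ := by
              rw [commutatorElement_def, commutatorElement_def, commutatorElement_def]; group
            have e2 : x * ⁅y, ε⁆ = ⁅y, ε⁆ * x := (hAcomm _ hyA x (hKvK hx)).eq.symm
            rw [e1, e2]; group
          refine ⟨Kv.mul_mem hx hy, ?_, ?_⟩
          · rw [e]; exact A.mul_mem hyA hxA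
          · rw [e, hlam.mul _ hyA _ hxA, hx0, hy0, add_zero]
        inv_mem' := by
          rintro x ⟨hx, hxA, hx0⟩
          have e : ⁅x⁻¹, ε⁆ = ⁅x, ε⁆⁻¹ := by
            have e1 : ⁅x⁻¹, ε⁆ = x⁻¹ * ⁅x, ε⁆⁻¹ * x := by
              rw [commutatorElement_def, commutatorElement_def]; group
            have e2 : x⁻¹ * ⁅x, ε⁆⁻¹ = ⁅x, ε⁆⁻¹ * x⁻¹ :=
              ((hAcomm _ (A.inv_mem hxA) x⁻¹ (π.ker.inv_mem (hKvK hx))).eq).symm
            rw [e1, e2]; group
          refine ⟨Kv.inv_mem hx, ?_, ?_⟩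
          · rw [e]; exact A.inv_mem hxA
          · rw [e, hlam.map_inv hxA, hx0] }
    have memN : ∀ y, y ∈ N ↔ y ∈ Kv ∧ ⁅y, ε⁆ ∈ A ∧ lam ⁅y, ε⁆ = 0 := fun y => Iff.rfl
    have hN2 : IsPGroup 2 N := by
      have hle : N ≤ π.ker := fun y hy => hKvK ((memN y).1 hy).1
      exact hπ.ker2.to_le hle
    have hconjε : ∀ y : G, ⁅ρ' * y * ρ'⁻¹, ε⁆ = ρ' * ⁅y, ε⁆ * ρ'⁻¹ := by
      intro y
      have e1 : ρ' * ε * ρ'⁻¹ = ε := by rw [← hερ]; group
      have e2 : ρ' * ⁅y, ε⁆ * ρ'⁻¹ = ⁅ρ' * y * ρ'⁻¹, ρ' * ε * ρ'⁻¹⁆ := by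
        rw [commutatorElement_def, commutatorElement_def]; group
      rw [e2, e1]
    have hx0A : ⁅τ * ε * τ⁻¹, ε⁆ ∈ A := by rw [hcτ]; exact hcA
    obtain ⟨y, hy, hyρ⟩ := T28.cop1 h6 N hN2 ρ' 7 (by decide) hρ'7
      (fun y hy => by
        rw [memN] at hy ⊢
        refine ⟨hKvn.conj_mem y hy.1 ρ', ?_, ?_⟩
        · rw [hconjε]; exact hAn.conj_mem _ hy.2.1 ρ'
        · rw [hconjε, hlam.conj _ _ hy.2.1, hy.2.2, act_zero])
      (τ * ε * τ⁻¹)
      (by
        rw [memN]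
        set x0 := τ * ε * τ⁻¹ with hx0
        have hx0' : ρ' * x0 * ρ'⁻¹ ∈ Kv := hKvn.conj_mem x0 hτεv ρ'
        have e1 : ⁅x0⁻¹ * (ρ' * x0 * ρ'⁻¹), ε⁆ = (ρ' * ⁅x0, ε⁆ * ρ'⁻¹) * ⁅x0, ε⁆⁻¹ := by
          have e2 : ⁅x0⁻¹ * (ρ' * x0 * ρ'⁻¹), ε⁆ =
              x0⁻¹ * ⁅ρ' * x0 * ρ'⁻¹, ε⁆ * x0 * (x0⁻¹ * ⁅x0, ε⁆⁻¹ * x0) := by
            rw [commutatorElement_def, commutatorElement_def, commutatorElement_def]; group
          rw [e2, hconjε]
          have hA1 : ρ' * ⁅x0, ε⁆ * ρ'⁻¹ ∈ A := hAn.conj_mem _ hx0A ρ'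
          have e3 : x0⁻¹ * (ρ' * ⁅x0, ε⁆ * ρ'⁻¹) = (ρ' * ⁅x0, ε⁆ * ρ'⁻¹) * x0⁻¹ :=
            ((hAcomm _ hA1 x0⁻¹ (π.ker.inv_mem (hKvK hτεv))).eq).symm
          have e4 : x0⁻¹ * ⁅x0, ε⁆⁻¹ = ⁅x0, ε⁆⁻¹ * x0⁻¹ :=
            ((hAcomm _ (A.inv_mem hx0A) x0⁻¹ (π.ker.inv_mem (hKvK hτεv))).eq).symm
          rw [e3, e4]; group
        refine ⟨Kv.mul_mem (Kv.inv_mem hτεv) hx0', ?_, ?_⟩
        · rw [e1]; exact A.mul_mem (hAn.conj_mem _ hx0A ρ') (A.inv_mem hx0A)
        · rw [e1, hlam.mul _ (hAn.conj_mem _ hx0A ρ') _ (A.inv_mem hx0A), hlam.conj _ _ hx0A,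
            hlam.map_inv hx0A, hcτ, πρ', hh']
          exact add_self _)
    -- `z' = (τετ⁻¹) y` commutes with `ρ'`, hence with `ε`
    rw [memN] at hy
    have hz'v : τ * ε * τ⁻¹ * y ∈ Kv := Kv.mul_mem hτεv hy.1
    have hz'ρ : (τ * ε * τ⁻¹ * y) * ρ' = ρ' * (τ * ε * τ⁻¹ * y) := by
      rw [← hyρ]
      nth_rewrite 2 [hyρ]
      group
    have hcm := T28.comm7 hπ hρ'7 hρ'1 (hKvK hz'v) hεK hz'ρ hερ
    have e0 : ⁅τ * ε * τ⁻¹ * y, ε⁆ = 1 := commutatorElement_eq_one_iff_mul_comm.2 hcm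
    have e1 : ⁅τ * ε * τ⁻¹ * y, ε⁆ = ⁅y, ε⁆ * ⁅τ * ε * τ⁻¹, ε⁆ := by
      have e2 : ⁅τ * ε * τ⁻¹ * y, ε⁆ = (τ * ε * τ⁻¹) * ⁅y, ε⁆ * (τ * ε * τ⁻¹)⁻¹ *
          ⁅τ * ε * τ⁻¹, ε⁆ := by
        rw [commutatorElement_def, commutatorElement_def, commutatorElement_def]; group
      have e3 : (τ * ε * τ⁻¹) * ⁅y, ε⁆ = ⁅y, ε⁆ * (τ * ε * τ⁻¹) :=
        (hAcomm _ hy.2.1 _ (hKvK hτεv)).eq.symm
      rw [e2, e3]; group
    rw [e0, hcτ] at e1
    have e4 : lam (⁅y, ε⁆ * c) = 0 := by rw [← e1]; exact hlam.map_one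
    rw [hlam.mul _ hy.2.1 _ hcA, hy.2.2, zero_add] at e4
    exact e4
  -- Step 6: `r c r⁻¹ = c`
  set X0 := rjT π .d A ⊥ with hX0
  have hX0n : X0.Normal := rjT_normal π .d hAn ⊥
  have hcX : c ∈ X0 := ⟨hcA, fun lam hl _ => hlam lam hl⟩
  have hrc : r * c * r⁻¹ = c := by
    have hmem : (r * c * r⁻¹) * c⁻¹ ∈ (⊥ : Subgroup G) := by
      refine M2 _ (X0.mul_mem (hX0n.conj_mem c hcX r) (X0.inv_mem hcX)) fun ψ hψ _ => ?_
      rw [hψ.mul _ (hX0n.conj_mem c hcX r) _ (X0.inv_mem hcX), hψ.conj r c hcX, hψ.map_inv hcX,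
        hF.πr]
      have hs' : act gs (ψ c) = ψ c := by
        rw [← hF.πs]; exact G27.act_homOn hψ hcX hcs.symm
      have := T28.L_fix (ψ c) hs'
      rw [this]
      exact add_self _
    rw [Subgroup.mem_bot, mul_inv_eq_one] at hmem
    exact hmem
  -- Step 7: `1 = n² = c c^r c^{r²} = c³ = c`
  have hccomm : ∀ y ∈ π.ker, Commute c y := fun y hy => hAcomm c hcA y hy
  have hbb : b * b = 1 := by
    rw [hb]
    calc r * ε * r⁻¹ * (r * ε * r⁻¹) = r * (ε * ε) * r⁻¹ := by group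
      _ = 1 := by rw [hee]; group
  have hdd : d * d = 1 := by
    rw [hd]
    calc r * b * r⁻¹ * (r * b * r⁻¹) = r * (b * b) * r⁻¹ := by group
      _ = 1 := by rw [hbb]; group
  have hrd : r * d * r⁻¹ = ε := by
    rw [hd, hb]
    have hr3' : r * r * r = 1 := by rw [← hr3, pow_succ, pow_two]
    calc r * (r * (r * ε * r⁻¹) * r⁻¹) * r⁻¹ = (r * r * r) * ε * (r * r * r)⁻¹ := by group
      _ = ε := by rw [hr3']; group
  have k1 : b * ε = c * (ε * b) := by
    rw [hc, commutatorElement_def]; group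
  have k2 : d * b = c * (b * d) := by
    have e1 : r * (b * ε) * r⁻¹ = d * b := by rw [hd]; nth_rewrite 3 [hb]; group
    have e2 : r * (c * (ε * b)) * r⁻¹ = (r * c * r⁻¹) * (b * d) := by
      rw [hd]; nth_rewrite 2 [hb]; group
    rw [← e1, k1, e2, hrc]
  have k3 : d * ε = c * (ε * d) := by
    have e1 : r * (d * b) * r⁻¹ = ε * d := by
      have : r * (d * b) * r⁻¹ = (r * d * r⁻¹) * (r * b * r⁻¹) := by group
      rw [this, hrd]
    have e2 : r * (c * (b * d)) * r⁻¹ = (r * c * r⁻¹) * (d * ε) := by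
      have : r * (c * (b * d)) * r⁻¹ = (r * c * r⁻¹) * ((r * b * r⁻¹) * (r * d * r⁻¹)) := by group
      rw [this, hrd]
    rw [k2, e2, hrc] at e1
    rw [← e1, ← mul_assoc, hc2, one_mul]
  have hdK : d ∈ π.ker := hKvK hdv
  have hbK : b ∈ π.ker := hKvK hbv
  have key := G27.nsq hee hbb hdd k1 k2 k3 (hccomm _ hεK) (hccomm _ hεK) (hccomm _ hεK)
    (hccomm _ hbK) (hccomm _ hbK) (hccomm _ hbK) (Commute.refl c) (Commute.refl c)
    (Commute.refl c)
  rw [hnn, hc2, one_mul] at key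
  exact key.symm

end Pool.Agent.A8
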