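import Pool.Agent.Helper28.A8.G27

/-! Block A8-G28 (helper28): statement (C). -/

set_option autoImplicit false

namespace Pool.Agent.A8

open Matrix
open scoped commutatorElement

/-- for commuting `x`, `t` with `u * u = x * t` -/
theorem G28.fourth {G : Type} [Group G] {u w : G}
    (hw : w * (u * w * u⁻¹) = (u * w * u⁻¹) * w) {y : G} (hy : y = (u * w * u⁻¹) * w)
    (hyy : y * y = 1) (hyu : (u * u) * y = y * (u * u)) (hu : u * u * u * u = 1) :
    (u * w) ^ 4 = 1 := by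
  have h2 : (u * w) * (u * w) = u * y * u := by
    have : u * y * u = u * (w * (u * w * u⁻¹)) * u := by rw [hw, ← hy]
    rw [this]; group
  have h4 : (u * w) ^ 4 = ((u * w) * (u * w)) * ((u * w) * (u * w)) := by
    simp [pow_succ, mul_assoc]
  rw [h4, h2]
  calc u * y * u * (u * y * u) = u * y * ((u * u) * y) * u := by simp only [mul_assoc]
    _ = u * (y * y) * (u * u) * u := by rw [hyu]; simp only [mul_assoc]
    _ = u * u * u * u := by rw [hyy]; simp only [mul_assoc, one_mul]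
    _ = 1 := hu

theorem T28.gh'_E1 : act gh' vE1 = vE1 := by
  rw [act_MV]
  have : gh'.1 *ᵥ ![0, 1, 0, 0] = (![0, 1, 0, 0] : Fin 4 → ZMod 2) := by decide +kernel
  exact this

theorem bC (h1 : S_C0) (h2 : S_THA) (h3 : S_G2) (h4 : S_C3A) (h5 : S_L7) (h6 : S_STR)
    (h7 : S_COP) (h8 : S_FROB) : S_C := by
  intro G _ _ π hπ s r τ hF p hp hps
  have S := h6 G π hπ
  have L := h5 G π hπ
  set Kv := Kt π .v with hKv
  have hKvn : Kv.Normal := Kt_normal π .v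
  have hKvK : Kv ≤ π.ker := Kt_le π .v
  set KV0 := rjT π .v Kv ⊥ with hKV0
  have hKV0n : KV0.Normal := rjT_normal π .v hKvn ⊥
  have hKV0v : KV0 ≤ Kv := rjT_le π .v Kv ⊥
  have hsr : s * r = r * s := hF.sr
  have hsτ : τ * s = s * τ := hF.τs
  have cs : ∀ g y : G, g * s = s * g → y * s = s * y → (g * y) * s = s * (g * y) := by
    intro g y hg hy
    have c1 : Commute g s := hg
    have c2 : Commute y s := hy
    exact c1.mul_left c2
  have ci : ∀ g : G, g * s = s * g → g⁻¹ * s = s * g⁻¹ := by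
    intro g hg
    have c1 : Commute g s := hg
    exact c1.inv_left
  have cc : ∀ g y : G, g * s = s * g → y * s = s * y → (g * y * g⁻¹) * s = s * (g * y * g⁻¹) :=
    fun g y hg hy => cs _ _ (cs _ _ hg hy) (ci _ hg)
  -- Step 0: `τ⁴ = 1`
  have hτK : τ * τ ∈ π.ker := by
    rw [MonoidHom.mem_ker, map_mul, hF.πτ, T28.gt_sq]
  have hττs : (τ * τ) * s = s * (τ * τ) := cs _ _ hsτ hsτ
  have hττr : (τ * τ) * r = r * (τ * τ) := by
    have e1 : τ * r = r⁻¹ * τ := by rw [← hF.τr]; group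
    have e2 : τ * r⁻¹ = r * τ := by
      have : τ * r⁻¹ * τ⁻¹ = r := by
        have : τ * r⁻¹ * τ⁻¹ = (τ * r * τ⁻¹)⁻¹ := by group
        rw [this, hF.τr, inv_inv]
      calc τ * r⁻¹ = (τ * r⁻¹ * τ⁻¹) * τ := by group
        _ = r * τ := by rw [this]
    rw [mul_assoc, e1, ← mul_assoc, e2, mul_assoc]
  have hτ4 : (τ * τ) * (τ * τ) = 1 := by
    refine h4 G π hπ (s * r) ?_ ?_ (τ * τ) hτK ?_
    · have c : Commute s r := hsr
      rw [c.mul_pow, hF.s3, hF.r3, one_mul]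
    · rw [map_mul, hF.πs, hF.πr, ga_eq]
    · rw [← mul_assoc, hττs, mul_assoc, hττr, ← mul_assoc]
  -- Step 1
  obtain ⟨p', hp', hp's, hφp', hred⟩ : ∃ p' ∈ Kv, p' * s = s * p' ∧
      (∀ φ : G → MV, HomOn π Kv φ → φ p' = 0 ∨ φ p' = vE1) ∧
      ((τ * p') ^ 4 = 1 → (τ * p) ^ 4 = 1) := by
    set y := p * (r * p * r⁻¹) with hy
    have hyv : y ∈ Kv := Kv.mul_mem hp (hKvn.conj_mem _ hp _)
    have hys : y * s = s * y := cs _ _ hps (cc _ _ hsr.symm hps)
    set z := y * (τ * y * τ⁻¹) with hz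
    have hzv : z ∈ Kv := Kv.mul_mem hyv (hKvn.conj_mem _ hyv _)
    have hzs : z * s = s * z := cs _ _ hys (cc _ _ hsτ hys)
    set q := r * z * r⁻¹ with hq
    have hqv : q ∈ Kv := hKvn.conj_mem _ hzv _
    have hqs : q * s = s * q := cc _ _ hsr.symm hzs
    have hτq : τ⁻¹ * q * τ ∈ Kv := by
      have := hKvn.conj_mem _ hqv τ⁻¹
      rwa [inv_inv] at this
    refine ⟨(τ⁻¹ * q * τ) * p * q⁻¹, Kv.mul_mem (Kv.mul_mem hτq hp) (Kv.inv_mem hqv), ?_, ?_, ?_⟩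
    · exact cs _ _ (cs _ _ (cs _ _ (cs _ _ (ci _ hsτ) hqs) hsτ) hps) (ci _ hqs)
    · intro φ hφ
      have e1 : φ y = φ p + act gr (φ p) := by
        rw [hy, hφ.mul _ hp _ (hKvn.conj_mem _ hp _), hφ.conj r p hp, hF.πr]
      have e2 : φ z = φ y + act gt (φ y) := by
        rw [hz, hφ.mul _ hyv _ (hKvn.conj_mem _ hyv _), hφ.conj τ y hyv, hF.πτ]
      have e3 : φ q = act gr (φ z) := by
        rw [hq, hφ.conj r z hzv, hF.πr]
      have e4 : φ (τ⁻¹ * q * τ) = act gt (φ q) := by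
        have h := hφ.conj τ⁻¹ q hqv
        rw [inv_inv] at h
        have hgi : gt⁻¹ = gt := inv_eq_of_mul_eq_one_left T28.gt_sq
        rw [h, map_inv, hF.πτ, hgi]
      have e5 : φ ((τ⁻¹ * q * τ) * p * q⁻¹) = act gt (φ q) + φ p + φ q := by
        rw [hφ.mul _ (Kv.mul_mem hτq hp) _ (Kv.inv_mem hqv), hφ.mul _ hτq _ hp, hφ.map_inv hqv, e4]
      have hgs : act gs (φ p) = φ p := by
        rw [← hF.πs]; exact G27.act_homOn hφ hp hps.symm
      have aa : ∀ x : MV, x + x = 0 := fun x => add_self x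
      rw [e5, e3, e2, e1]
      rcases T28.V_gs _ hgs with h | h | h | h
      · left; rw [h]; simp
      · left
        rw [h]
        simp only [act_add, T28.gr_E0, T28.gr_E1, T28.gt_E0, T28.gt_E1]
        decide
      · right
        rw [h]
        simp only [act_add, T28.gr_E0, T28.gr_E1, T28.gt_E0, T28.gt_E1]
        decide
      · right
        rw [h]
        simp only [act_add, T28.gr_E0, T28.gr_E1, T28.gt_E0, T28.gt_E1]
        decide
    · intro h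
      have e : τ * ((τ⁻¹ * q * τ) * p * q⁻¹) = q * (τ * p) * q⁻¹ := by group
      rw [e, conj_pow] at h
      have : (τ * p) ^ 4 = q⁻¹ * (q * (τ * p) ^ 4 * q⁻¹) * q := by group
      rw [this, h]; group
  refine hred ?_
  clear hred hps hp p
  -- Step 2
  obtain ⟨ρ, hR⟩ := h8 G π hπ s hF.s3 hF.πs
  set ρ' := r * τ * ρ * τ⁻¹ * r⁻¹ with hρ'
  have πρ' : π ρ' = gh' := by
    rw [hρ', map_mul, map_mul, map_mul, map_mul, map_inv, map_inv, hF.πr, hF.πτ, hR.πρ, gh'_eq]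
  have hρ'7 : ρ' ^ 7 = 1 := by
    have : ρ' = (r * τ) * ρ * (r * τ)⁻¹ := by rw [hρ']; group
    rw [this, conj_pow, hR.r7]; group
  have hρ'1 : ρ' ≠ 1 := by
    intro h
    rw [h, map_one] at πρ'
    exact T28.gh'_ne πρ'.symm
  have hsρ' : s * ρ' * s⁻¹ = ρ' ^ 2 := by
    have e1 : ρ' = (r * τ) * ρ * (r * τ)⁻¹ := by rw [hρ']; group
    have hrτ : (r * τ) * s = s * (r * τ) := cs _ _ hsr.symm hsτ
    have e2 : s * ((r * τ) * ρ * (r * τ)⁻¹) * s⁻¹ = (r * τ) * (s * ρ * s⁻¹) * (r * τ)⁻¹ := by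
      calc s * ((r * τ) * ρ * (r * τ)⁻¹) * s⁻¹
          = (s * (r * τ)) * ρ * (s * (r * τ))⁻¹ := by group
        _ = ((r * τ) * s) * ρ * ((r * τ) * s)⁻¹ := by rw [hrτ]
        _ = _ := by group
    rw [e1, e2, hR.sρ, conj_pow]
  have hKV02 : IsPGroup 2 KV0 := hπ.ker2.to_le (hKV0v.trans hKvK)
  obtain ⟨n, hn, hεs, hερ⟩ := T28.cop2 h7 KV0 hKV02 s ρ' hF.s3 hρ'7 hsρ'
    (fun n hn => hKV0n.conj_mem n hn s) (fun n hn => hKV0n.conj_mem n hn ρ') p'
    (by
      have : p'⁻¹ * (s * p' * s⁻¹) = 1 := by rw [← hp's]; group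
      rw [this]; exact KV0.one_mem)
    (by
      rw [hKV0, mem_rjT]
      refine ⟨Kv.mul_mem (Kv.inv_mem hp') (hKvn.conj_mem _ hp' _), fun φ hφ _ => ?_⟩
      rw [hφ.mul _ (Kv.inv_mem hp') _ (hKvn.conj_mem _ hp' _), hφ.map_inv hp', hφ.conj ρ' p' hp',
        πρ']
      rcases hφp' φ hφ with h | h
      · rw [h]; simp
      · rw [h, T28.gh'_E1]
        decide)
  set ε := p' * n with hε
  have hεv : ε ∈ Kv := Kv.mul_mem hp' (hKV0v hn)
  set w := n⁻¹ with hw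
  have hwK : w ∈ KV0 := KV0.inv_mem hn
  have hp'w : p' = ε * w := by rw [hε, hw]; group
  have hws : w * s = s * w := by
    have : w = ε⁻¹ * p' := by rw [hp'w]; group
    rw [this]
    exact cs _ _ (ci _ hεs) hp's
  -- Step 3
  have hτε := h2 G π hπ s r τ hF ε hεv hεs
  have hC0 := h1 G π hπ s r τ ρ hF hR ε hεv hεs hερ
  have hee : ε * ε = 1 := T28.sq7 hπ hρ'7 hρ'1 (hKvK hεv) hερ
  obtain ⟨x, hx⟩ : ∃ x, x = (τ * ε * τ⁻¹) * ε := ⟨_, rfl⟩
  have hxv : x ∈ Kv := by rw [hx]; exact Kv.mul_mem (hKvn.conj_mem _ hεv _) hεv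
  have hxx : x * x = 1 := by
    calc x * x = (τ * ε * τ⁻¹) * (ε * (τ * ε * τ⁻¹)) * ε := by rw [hx]; simp only [mul_assoc]
      _ = (τ * ε * τ⁻¹) * ((τ * ε * τ⁻¹) * ε) * ε := by rw [hC0]
      _ = τ * (ε * ε) * τ⁻¹ * (ε * ε) := by group
      _ = 1 := by rw [hee]; group
  obtain ⟨u, hu⟩ : ∃ u, u = τ * ε := ⟨_, rfl⟩
  have huu : u * u = x * (τ * τ) := by
    calc u * u = (τ * ε * τ⁻¹) * ((τ * τ) * ε) := by rw [hu]; group
      _ = x * (τ * τ) := by rw [hτε, hx]; simp only [mul_assoc]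
  have hxτ : (τ * τ) * x = x * (τ * τ) := by
    have e1 : (τ * τ) * (τ * ε * τ⁻¹) = (τ * ε * τ⁻¹) * (τ * τ) := by
      calc (τ * τ) * (τ * ε * τ⁻¹) = τ * ((τ * τ) * ε) * τ⁻¹ := by group
        _ = τ * (ε * (τ * τ)) * τ⁻¹ := by rw [hτε]
        _ = _ := by group
    calc (τ * τ) * x = ((τ * τ) * (τ * ε * τ⁻¹)) * ε := by rw [hx]; simp only [mul_assoc]
      _ = (τ * ε * τ⁻¹) * ((τ * τ) * ε) := by rw [e1]; simp only [mul_assoc]
      _ = x * (τ * τ) := by rw [hτε, hx]; simp only [mul_assoc]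
  have hu4 : u * u * u * u = 1 := by
    calc u * u * u * u = (u * u) * (u * u) := by simp only [mul_assoc]
      _ = x * ((τ * τ) * x) * (τ * τ) := by rw [huu]; simp only [mul_assoc]
      _ = (x * x) * ((τ * τ) * (τ * τ)) := by rw [hxτ]; simp only [mul_assoc]
      _ = 1 := by rw [hxx, hτ4, one_mul]
  have hus : u * s = s * u := by rw [hu]; exact cs _ _ hsτ hεs
  have hπu : π u = gt := by
    rw [hu, map_mul, hF.πτ, MonoidHom.mem_ker.1 (hKvK hεv), mul_one]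
  -- Step 4
  have huw : u * w * u⁻¹ ∈ KV0 := hKV0n.conj_mem _ hwK u
  have hy0 : (u * w * u⁻¹) * w ∈ KV0 := KV0.mul_mem huw hwK
  have hys : ((u * w * u⁻¹) * w) * s = s * ((u * w * u⁻¹) * w) := cs _ _ (cc _ _ hus hws) hws
  have hyx : ((u * w * u⁻¹) * w) * x = x * ((u * w * u⁻¹) * w) := by
    refine h3 G π hπ s u w x hF.s3 hF.πs hπu hus hwK hws hxv ?_
    intro φ hφ
    rw [hx, hφ.mul _ (hKvn.conj_mem _ hεv _) _ hεv, hφ.conj τ ε hεv, hF.πτ]
    have hφε : φ ε = 0 ∨ φ ε = vE1 := by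
      refine T28.V_fix _ ?_ ?_
      · rw [← πρ']
        exact G27.act_homOn hφ hεv hερ.symm
      · rw [← hF.πs]
        exact G27.act_homOn hφ hεv hεs.symm
    rcases hφε with h | h
    · left; rw [h]; simp
    · right
      rw [h, T28.gt_E1]
      decide
  have hyτ := h2 G π hπ s r τ hF _ (hKV0v hy0) hys
  have hyu : (u * u) * ((u * w * u⁻¹) * w) = ((u * w * u⁻¹) * w) * (u * u) := by
    rw [huu, mul_assoc x, hyτ, ← mul_assoc x, ← hyx, mul_assoc _ x]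
  rw [hp'w]
  have e : τ * (ε * w) = u * w := by rw [hu]; simp only [mul_assoc]
  rw [e]
  exact G28.fourth (L.ab _ hwK _ huw) rfl (L.el _ hy0) hyu hu4

end Pool.Agent.A8
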