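import Pool.Agent.Helper89.A8.Stmts
import Pool.Agent.Helper89.A8.GTools

/-! Tools for the blocks G27, G28 (helper28). -/

set_option autoImplicit false

namespace Pool.Agent.A8

open Matrix
open scoped commutatorElement

/-! ### finite checks -/

set_option maxRecDepth 100000 in
theorem T28.V_fix (v : MV) (h1 : act gh' v = v) (h2 : act gs v = v) : v = 0 ∨ v = vE1 := by
  rw [act_MV] at h1 h2
  have key : ∀ v : Fin 4 → ZMod 2, gh'.1 *ᵥ v = v → gs.1 *ᵥ v = v →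
      v = 0 ∨ v = ![0, 1, 0, 0] := by decide +kernel
  exact key v h1 h2

set_option maxRecDepth 100000 in
theorem T28.V_gs (v : MV) (h2 : act gs v = v) : v = 0 ∨ v = vE0 ∨ v = vE1 ∨ v = vE0 + vE1 := by
  rw [act_MV] at h2
  have key : ∀ v : Fin 4 → ZMod 2, gs.1 *ᵥ v = v →
      v = 0 ∨ v = ![1, 0, 0, 0] ∨ v = ![0, 1, 0, 0] ∨ v = ![1, 0, 0, 0] + ![0, 1, 0, 0] := by
    decide +kernel
  exact key v h2

theorem T28.gr_E0 : act gr vE0 = vE1 := by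
  rw [act_MV]
  have : gr.1 *ᵥ ![1, 0, 0, 0] = (![0, 1, 0, 0] : Fin 4 → ZMod 2) := by decide +kernel
  exact this

theorem T28.gr_E1 : act gr vE1 = vE0 + vE1 := by
  rw [act_MV]
  have : gr.1 *ᵥ ![0, 1, 0, 0] = (![1, 0, 0, 0] + ![0, 1, 0, 0] : Fin 4 → ZMod 2) := by
    decide +kernel
  exact this

theorem T28.gt_E0 : act gt vE0 = vE0 := by
  rw [act_MV]
  have : gt.1 *ᵥ ![1, 0, 0, 0] = (![1, 0, 0, 0] : Fin 4 → ZMod 2) := by decide +kernel
  exact this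

theorem T28.gt_E1 : act gt vE1 = vE0 + vE1 := by
  rw [act_MV]
  have : gt.1 *ᵥ ![0, 1, 0, 0] = (![1, 0, 0, 0] + ![0, 1, 0, 0] : Fin 4 → ZMod 2) := by
    decide +kernel
  exact this

set_option maxRecDepth 100000 in
theorem T28.D_fix (x : MD) (h1 : act gs x = x) (h2 : act gt x = x) : act gh' x = x := by
  rw [act_MD] at h1 h2 ⊢
  have key : ∀ v : Fin 4 → ZMod 2, (gs⁻¹).1ᵀ *ᵥ v = v → (gt⁻¹).1ᵀ *ᵥ v = v →
      (gh'⁻¹).1ᵀ *ᵥ v = v := by decide +kernel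
  exact key x h1 h2

set_option maxRecDepth 100000 in
theorem T28.L_fix (x : ML) (h1 : act gs x = x) : act gr x = x := by
  rw [act_ML] at h1 ⊢
  have key : ∀ v : Fin 6 → ZMod 2, actL gs.1 v = v → actL gr.1 v = v := by decide +kernel
  exact key x h1

theorem T28.gt_sq : gt * gt = 1 := by
  apply Units.ext
  decide

theorem T28.gh'_ne : gh' ≠ 1 := by
  intro h
  have := congrArg Units.val h
  revert this
  decide

/-! ### groups -/

section
variable {G : Type} [Group G] {π : G →* Gam}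

theorem T28.order (hπ : Cfg π) {x : G} (hx : x ∈ π.ker) : ∃ k : ℕ, orderOf x = 2 ^ k := by
  obtain ⟨k, hk⟩ := hπ.ker2 ⟨x, hx⟩
  have h1 : x ^ 2 ^ k = 1 := by
    have := congrArg Subtype.val hk
    simpa using this
  obtain ⟨j, _, hj⟩ := (Nat.dvd_prime_pow Nat.prime_two).1 (orderOf_dvd_of_pow_eq_one h1)
  exact ⟨j, hj⟩

/-- (7) -/
theorem T28.sq7 [Finite G] (hπ : Cfg π) {x y : G} (hy : y ^ 7 = 1) (hy1 : y ≠ 1)
    (hx : x ∈ π.ker) (h : x * y = y * x) : x * x = 1 := by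
  obtain ⟨k, hk⟩ := T28.order hπ hx
  haveI : Fact (Nat.Prime 7) := ⟨by norm_num⟩
  have hy7 : orderOf y = 7 := orderOf_eq_prime hy hy1
  rcases Nat.lt_or_ge k 2 with h2 | h2
  · have : orderOf x ∣ 2 := by
      rw [hk]
      interval_cases k <;> norm_num
    rw [← pow_two]
    exact orderOf_dvd_iff_pow_eq_one.1 this
  · exfalso
    obtain ⟨j, rfl⟩ : ∃ j, k = j + 2 := ⟨k - 2, by omega⟩
    have h4 : orderOf (x ^ 2 ^ j) = 4 := by
      rw [orderOf_pow_of_dvd (by positivity) (by rw [hk]; exact pow_dvd_pow 2 (by omega)), hk,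
        pow_add, Nat.mul_div_cancel_left _ (by positivity)]
      norm_num
    have hc : Commute (x ^ 2 ^ j) y := Commute.pow_left h _
    have := hc.orderOf_mul_eq_mul_orderOf_of_coprime (by rw [h4, hy7]; norm_num)
    rw [h4, hy7] at this
    exact hπ.n28 _ this

theorem T28.comm7 [Finite G] (hπ : Cfg π) {x x' y : G} (hy : y ^ 7 = 1) (hy1 : y ≠ 1)
    (hx : x ∈ π.ker) (hx' : x' ∈ π.ker) (h : x * y = y * x) (h' : x' * y = y * x') :
    x * x' = x' * x := by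
  have h1 := T28.sq7 hπ hy hy1 hx h
  have h2 := T28.sq7 hπ hy hy1 hx' h'
  have h3 := T28.sq7 hπ hy hy1 (π.ker.mul_mem hx hx') (by
    rw [mul_assoc, h', ← mul_assoc, h, mul_assoc])
  have e1 : x⁻¹ = x := inv_eq_of_mul_eq_one_left h1
  have e2 : x'⁻¹ = x' := inv_eq_of_mul_eq_one_left h2
  have e3 : (x * x')⁻¹ = x * x' := inv_eq_of_mul_eq_one_left h3
  rw [_root_.mul_inv_rev, e1, e2] at e3
  exact e3.symm

/-- coprime action of a cyclic group of odd order -/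
theorem T28.cop1 (hC : S_COP) [Finite G] (N : Subgroup G) (hN : IsPGroup 2 N) (s : G) (k : ℕ)
    (hk : Odd k) (hsk : s ^ k = 1) (hs : ∀ n ∈ N, s * n * s⁻¹ ∈ N) (x : G)
    (hx : x⁻¹ * (s * x * s⁻¹) ∈ N) : ∃ n ∈ N, s * (x * n) * s⁻¹ = x * n := by
  have hmem : ∀ h ∈ Subgroup.zpowers s, ∃ i : ℕ, s ^ i = h := by
    intro h hh
    exact Submonoid.mem_powers_iff _ _ |>.1 ((mem_powers_iff_mem_zpowers).2 hh)
  have h1 : ∀ i : ℕ, ∀ n ∈ N, s ^ i * n * (s ^ i)⁻¹ ∈ N := by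
    intro i
    induction i with
    | zero => intro n hn; simpa using hn
    | succ i ih =>
      intro n hn
      have := hs _ (ih n hn)
      have e : s ^ (i + 1) * n * (s ^ (i + 1))⁻¹ = s * (s ^ i * n * (s ^ i)⁻¹) * s⁻¹ := by
        rw [pow_succ']; group
      rw [e]; exact this
  have h2 : ∀ i : ℕ, x⁻¹ * (s ^ i * x * (s ^ i)⁻¹) ∈ N := by
    intro i
    induction i with
    | zero => simp [N.one_mem]
    | succ i ih =>
      have e : x⁻¹ * (s ^ (i + 1) * x * (s ^ (i + 1))⁻¹) =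
          (x⁻¹ * (s * x * s⁻¹)) * (s * (x⁻¹ * (s ^ i * x * (s ^ i)⁻¹)) * s⁻¹) := by
        rw [pow_succ']; group
      rw [e]
      exact N.mul_mem hx (hs _ ih)
  obtain ⟨n, hn, hn'⟩ := hC G (Subgroup.zpowers s) N inferInstance
    (by
      rw [Nat.card_zpowers]
      exact Odd.of_dvd_nat hk (orderOf_dvd_of_pow_eq_one hsk))
    hN
    (fun h hh n hn => by obtain ⟨i, rfl⟩ := hmem h hh; exact h1 i n hn) x
    (fun h hh => by obtain ⟨i, rfl⟩ := hmem h hh; exact h2 i)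
  exact ⟨n, hn, hn' s (Subgroup.mem_zpowers s)⟩

/-- coprime action of `7 : 3` -/
theorem T28.cop2 (hC : S_COP) [Finite G] (N : Subgroup G) (hN : IsPGroup 2 N) (s ρ : G)
    (hs3 : s ^ 3 = 1) (hρ7 : ρ ^ 7 = 1) (hsρ : s * ρ * s⁻¹ = ρ ^ 2)
    (hs : ∀ n ∈ N, s * n * s⁻¹ ∈ N) (hρ : ∀ n ∈ N, ρ * n * ρ⁻¹ ∈ N) (x : G)
    (hxs : x⁻¹ * (s * x * s⁻¹) ∈ N) (hxρ : x⁻¹ * (ρ * x * ρ⁻¹) ∈ N) :
    ∃ n ∈ N, (x * n) * s = s * (x * n) ∧ (x * n) * ρ = ρ * (x * n) := by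
  obtain ⟨n1, hn1, h1⟩ := T28.cop1 hC N hN ρ 7 (by decide) hρ7 hρ x hxρ
  have hρs : ρ * s = s * ρ ^ 4 := by
    have e1 : s * ρ ^ 4 * s⁻¹ = ρ ^ 8 := by
      have : s * ρ ^ 4 * s⁻¹ = (s * ρ * s⁻¹) ^ 4 := by rw [conj_pow]
      rw [this, hsρ, ← pow_mul]
    have e2 : ρ ^ 8 = ρ := by rw [pow_succ, hρ7, one_mul]
    rw [e2] at e1
    calc ρ * s = (s * ρ ^ 4 * s⁻¹) * s := by rw [e1]
      _ = s * ρ ^ 4 := by group
  have hcomm : ∀ y : G, y * ρ = ρ * y → (s * y * s⁻¹) * ρ = ρ * (s * y * s⁻¹) := by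
    intro y hy
    have hy4 : y * ρ ^ 4 = ρ ^ 4 * y := ((show Commute y ρ from hy).pow_right 4)
    have e : s⁻¹ * ρ = ρ ^ 4 * s⁻¹ := by
      rw [inv_mul_eq_iff_eq_mul, ← mul_assoc, ← hρs]; group
    calc (s * y * s⁻¹) * ρ = s * y * (s⁻¹ * ρ) := by group
      _ = s * (y * ρ ^ 4) * s⁻¹ := by rw [e]; group
      _ = (s * ρ ^ 4) * y * s⁻¹ := by rw [hy4]; group
      _ = ρ * (s * y * s⁻¹) := by rw [← hρs]; group
  set x1 := x * n1 with hx1
  have hx1ρ : x1 * ρ = ρ * x1 := by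
    rw [← h1]
    nth_rewrite 2 [h1]
    group
  let N1 : Subgroup G := N ⊓ Subgroup.centralizer {ρ}
  have memN1 : ∀ y, y ∈ N1 ↔ y ∈ N ∧ y * ρ = ρ * y := by
    intro y
    rw [Subgroup.mem_inf, Subgroup.mem_centralizer_singleton_iff]
  have hN1 : IsPGroup 2 N1 := hN.to_le inf_le_left
  obtain ⟨n2, hn2, h2⟩ := T28.cop1 hC N1 hN1 s 3 (by decide) hs3
    (fun n hn => by
      rw [memN1] at hn ⊢
      exact ⟨hs n hn.1, hcomm n hn.2⟩) x1
    (by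
      rw [memN1]
      constructor
      · have e : x1⁻¹ * (s * x1 * s⁻¹) = n1⁻¹ * (x⁻¹ * (s * x * s⁻¹)) * (s * n1 * s⁻¹) := by
          rw [hx1]; group
        rw [e]
        exact N.mul_mem (N.mul_mem (N.inv_mem hn1) hxs) (hs _ hn1)
      · have c1 : Commute x1 ρ := hx1ρ
        have c2 : Commute (s * x1 * s⁻¹) ρ := hcomm x1 hx1ρ
        exact c1.inv_left.mul_left c2)
  rw [memN1] at hn2
  refine ⟨n1 * n2, N.mul_mem hn1 hn2.1, ?_, ?_⟩
  · rw [← mul_assoc, ← hx1]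
    rw [← h2]
    nth_rewrite 2 [h2]
    group
  · rw [← mul_assoc, ← hx1]
    have c1 : Commute x1 ρ := hx1ρ
    exact c1.mul_left hn2.2

end

end Pool.Agent.A8
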